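import Pool.Agent.helper97.NA.SpecE

/-!
# MP_baa4d7_al, THEOREM NA, extensions, row `nx:XUA`: automorphisms, unit classes and `BE`
-/

set_option autoImplicit false

namespace Pool.Agent.NAB

open Pool.Agent.helper58.DC Pool.Agent.DI Pool.Agent.GR Pool.Agent.OB Pool.Agent.DR Pool.Agent.FI Pool.Agent.FI3 Pool.Agent.FI4 Pool.Agent.FI4I Pool.Agent.FI4E Pool.Agent.LE Pool.Agent.L5

section

variable {G : Type} [Group G]

theorem XUA_Eg (p e : ℕ) (α : MulAut G) (z : G) : Eg p e (α z) = am α (Eg p e z) := by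
  unfold Eg am
  rw [MonoidHom.map_zpowers]
  congr 1
  change (α z) ^ p ^ (e - 1) = α (z ^ p ^ (e - 1))
  rw [map_pow]

theorem XUA_cc (α : MulAut G) (ψ z : G → ℂ) :
    cc (funMap α ψ) z = cc ψ (fun x => z (α x)) := by
  unfold cc
  have h1 : funMap α ψ 1 = ψ 1 := by simp [funMap]
  rw [h1]
  congr 1
  rw [← finsum_comp_equiv α.toEquiv]
  refine finsum_congr fun x => ?_
  have h2 : α.toEquiv x = α x := rfl
  rw [h2]
  have h3 : funMap α ψ (α x) = ψ x := by
    unfold funMap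
    rw [MulAut.inv_apply_self]
  rw [h3]

theorem XUA_cls (α : MulAut G) (L : Subgroup G) (y x : G) : cls (am α L) (α y) (α x) = cls L y x := by
  unfold cls
  have h : (∃ l ∈ am α L, l * α y * l⁻¹ = α x) ↔ ∃ l ∈ L, l * y * l⁻¹ = x := by
    constructor
    · rintro ⟨l, hl, h1⟩
      refine ⟨α⁻¹ l, mem_am.1 hl, ?_⟩
      apply α.injective
      rw [map_mul, map_mul, map_inv, MulAut.apply_inv_self]
      exact h1
    · rintro ⟨l, hl, h1⟩
      refine ⟨α l, ⟨l, hl, rfl⟩, ?_⟩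
      rw [← h1, map_mul, map_mul, map_inv]
  by_cases h2 : ∃ l ∈ L, l * y * l⁻¹ = x
  · rw [if_pos h2, if_pos (h.2 h2)]
  · rw [if_neg h2, if_neg (fun h3 => h2 (h.1 h3))]

theorem XUA_SB (M : Ideal (integralClosure ℤ ℂ)) (L : Subgroup G) (l : G) (hl : l ∈ L) (η : G → ℂ) :
    SB M L (cjF l η) η := by
  intro z hz hi
  have h1 : cc (cjF l η) z = cc η z := by
    rw [← funMap_conj, XUA_cc]
    congr 1
    funext x
    rw [MulAut.conj_apply]
    exact hz.1 l hl x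
  rw [h1]
  exact SB.refl L η z hz hi

end

theorem XUA_ucl (hBAA : BAA_stmt) (p e m : ℕ) (M : Ideal (integralClosure ℤ ℂ)) (G : Type) [Group G] [Finite G] (α : MulAut G)
    (L : Subgroup G) (ψ : G → ℂ) (z x : G) (h : Ucl p e m M L ψ z x) : Ucl p e m M (am α L) (funMap α ψ) (α z) (α x) := by
  have ho : ∀ y : G, orderOf (α y) = orderOf y := fun y => MulEquiv.orderOf_eq α y
  refine ⟨?_, ?_, ?_, ⟨z, h.zm, rfl⟩, ⟨x, h.xm, rfl⟩, ?_, ?_, ?_⟩
  · obtain ⟨k, hk⟩ := h.pe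
    exact ⟨k, by rw [← map_pow, hk, map_one]⟩
  · unfold PReg
    rw [ho]
    exact h.re
  · rw [← map_mul, ← map_mul, h.co]
  · rw [ho, h.od]
  · rw [← map_mul, XUA_cc]
    have h1 : (fun y => cls (am α L) (α (z * x)) (α y)) = cls L (z * x) := by
      funext y
      exact XUA_cls α L (z * x) y
    rw [h1]
    exact h.ne
  · have h2 := (hBAA G M p α L L L ψ ψ ψ).2.1 (z * x)
    have h3 := (hBAA G M p α (Cz L (z * x)) L L ψ ψ ψ).1.2.2.2.2.1
    rw [← map_mul, ← h2]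
    have h4 : pp p (am α (Cz L (z * x)) : Subgroup G) = pp p (Cz L (z * x) : Subgroup G) := by
      unfold pp
      rw [h3]
    rw [h4]
    exact h.cd

theorem XUA (hBAA : BAA_stmt) : XUA_stmt := by
  intro p e m M hM G _ _ α
  refine ⟨fun z => XUA_Eg p e α z, fun L ψ z x h => XUA_ucl hBAA p e m M G α L ψ z x h, ?_, ?_⟩
  · rintro L K E ψ hL hK hE hS η ⟨h1, h2, z, x, h3, h4⟩
    refine ⟨?_, ?_, α z, α x, ?_, ?_⟩
    · have h5 := (hBAA G M p α K K K η η η).2.2.1.1 h1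
      rw [hK] at h5
      exact h5
    · have h5 := (hBAA G M p α L L L η ψ ψ).2.2.2.1.1 h2
      rw [hL] at h5
      exact h5.trans hS
    · have h5 := XUA_ucl hBAA p e m M G α K η z x h3
      rw [hK] at h5
      exact h5
    · rw [XUA_Eg, h4, hE]
  · rintro L K E ψ l hl η ⟨h1, h2, z, x, h3, h4⟩
    refine ⟨?_, ?_, MulAut.conj l z, MulAut.conj l x, ?_, ?_⟩
    · exact (hBAA G M p (MulAut.conj l) K K K η η η).2.2.1.1 h1
    · exact (XUA_SB M L l hl η).trans h2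
    · exact XUA_ucl hBAA p e m M G (MulAut.conj l) K η z x h3
    · rw [XUA_Eg, h4, am_conj]

end Pool.Agent.NAB
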